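import Pool.Agent.N659.HB.Stm8

/-!
Part OD of the project SD: diagonal parts around a symbol.
-/

namespace Pool.Agent.N364.SD.OD

open MeasureTheory Filter Pool.Agent.W792.LL Pool.Agent.W792.WA Pool.Agent.N659.HB
open scoped Topology ENNReal

noncomputable section

/-- Diagonal operators with bounded entries. -/
theorem dia_bd (hD : S_DIA) {Γ : Type} (c : Γ → ℂ) (M : ℝ) (hM : 0 < M) (hc : ∀ x, ‖c x‖ ≤ M) :
    (∀ (u : l2 Γ) (x : Γ), dia c u x = c x * u x) ∧ ‖dia c‖ ≤ M := by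
  have hM' : (M : ℂ) ≠ 0 := by exact_mod_cast hM.ne'
  obtain ⟨h1, h2⟩ := hD Γ (fun x => c x / M) (by
    intro x
    rw [norm_div, Complex.norm_real, Real.norm_eq_abs, abs_of_pos hM, div_le_one hM]
    exact hc x)
  have hex : ∃ D : l2 Γ →L[ℂ] l2 Γ, ∀ u x, D u x = c x * u x := by
    refine ⟨(M : ℂ) • dia (fun x => c x / M), fun u x => ?_⟩
    have : ((M : ℂ) • dia (fun x => c x / M)) u x = (M : ℂ) * (dia (fun x => c x / M) u x) := rfl
    rw [this, h1]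
    field_simp
  have h3 : ∀ (u : l2 Γ) (x : Γ), dia c u x = c x * u x := by
    intro u x
    have : dia c = Classical.choose hex := by
      unfold dia
      rw [dif_pos hex]
    rw [this]
    exact Classical.choose_spec hex u x
  refine ⟨h3, ?_⟩
  have h4 : dia c = (M : ℂ) • dia (fun x => c x / M) := by
    apply ContinuousLinearMap.ext
    intro u
    apply lp.ext
    funext x
    have : ((M : ℂ) • dia (fun x => c x / M)) u x = (M : ℂ) * (dia (fun x => c x / M) u x) := rfl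
    rw [this, h1, h3]
    field_simp
  rw [h4, norm_smul, Complex.norm_real, Real.norm_eq_abs, abs_of_pos hM]
  nlinarith

/-- Truncation. -/
def tr {d : ℕ} (s : Finset (Fin d → ℤ)) (u : l2 (Fin d → ℤ)) : l2 (Fin d → ℤ) :=
  ∑ b ∈ s, u b • dl b

theorem single_eq {d : ℕ} (u : l2 (Fin d → ℤ)) (b : Fin d → ℤ) :
    (lp.single 2 b (u b) : l2 (Fin d → ℤ)) = u b • dl b := by
  rw [dl, ← lp.single_smul]
  simp

theorem tr_tendsto {d : ℕ} (u : l2 (Fin d → ℤ)) : Tendsto (fun s => tr s u) atTop (𝓝 u) := by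
  have h := lp.hasSum_single (E := fun _ : Fin d → ℤ => ℂ) (p := 2) (by norm_num) u
  simp only [single_eq] at h
  exact h

theorem sq_sum_le {d : ℕ} (s : Finset (Fin d → ℤ)) (u : l2 (Fin d → ℤ)) :
    ∑ a ∈ s, ‖u a‖ ^ 2 ≤ ‖u‖ ^ 2 := by
  have h := lp.sum_rpow_le_norm_rpow (E := fun _ : Fin d → ℤ => ℂ) (p := 2) (by norm_num) u s
  simpa using h

theorem tr_norm {d : ℕ} (s : Finset (Fin d → ℤ)) (u : l2 (Fin d → ℤ)) : ‖tr s u‖ ≤ ‖u‖ := by
  have h := lp.norm_sum_single (E := fun _ : Fin d → ℤ => ℂ) (p := 2) (by norm_num) (fun i => u i) s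
  have h2 := sq_sum_le s u
  simp only [single_eq] at h
  have h3 : ‖tr s u‖ ^ 2 = ∑ a ∈ s, ‖u a‖ ^ 2 := by
    have : ‖tr s u‖ ^ (2 : ℝ) = ∑ a ∈ s, ‖u a‖ ^ (2 : ℝ) := by simpa [tr] using h
    simpa using this
  rw [← h3] at h2
  exact abs_le_of_sq_le_sq' h2 (norm_nonneg _) |>.2

theorem dl_inner {d : ℕ} (a : Fin d → ℤ) (w : l2 (Fin d → ℤ)) : inner ℂ (dl a) w = w a := by
  have h := lp.inner_single_left (𝕜 := ℂ) (G := fun _ : Fin d → ℤ => ℂ) a (1 : ℂ) w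
  rw [dl, h]
  simp

theorem dia_dl {d : ℕ} (c : (Fin d → ℤ) → ℂ)
    (hc : ∀ (u : l2 (Fin d → ℤ)) (x : Fin d → ℤ), dia c u x = c x * u x) (b : Fin d → ℤ) :
    dia c (dl b) = c b • dl b := by
  apply lp.ext
  funext x
  rw [hc]
  have : (c b • dl b : l2 (Fin d → ℤ)) x = c b * (dl b x) := rfl
  rw [this]
  by_cases hx : x = b
  · rw [hx]
  · have : (dl b : l2 (Fin d → ℤ)) x = 0 := by
      rw [dl, lp.single_apply_ne (E := fun _ : Fin d → ℤ => ℂ) 2 b (1 : ℂ) hx]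
    rw [this]
    simp

/-- Expansion of the quadratic form. -/
theorem expand {d : ℕ} (c : (Fin d → ℤ) → ℂ)
    (hc : ∀ (u : l2 (Fin d → ℤ)) (x : Fin d → ℤ), dia c u x = c x * u x)
    (Y : C(UnitAddTorus (Fin d), ℂ))
    (hY : ∀ x y : Fin d → ℤ, opr Y (dl y) x = UnitAddTorus.mFourierCoeff Y (x - y))
    (s : Finset (Fin d → ℤ)) (u u' : l2 (Fin d → ℤ)) :
    inner ℂ (tr s u') (dia c (opr Y (dia c (tr s u)))) =
      ∑ a ∈ s, ∑ b ∈ s, (starRingEnd ℂ (u' a) * UnitAddTorus.mFourierCoeff Y (a - b) * u b)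
        * (c a * c b) := by
  have h1 : dia c (tr s u) = ∑ b ∈ s, (u b * c b) • (dl b : l2 (Fin d → ℤ)) := by
    unfold tr
    rw [map_sum]
    refine Finset.sum_congr rfl fun b _ => ?_
    rw [map_smul, dia_dl c hc, smul_smul]
  have h2 : ∀ a : Fin d → ℤ, opr Y (dia c (tr s u)) a
      = ∑ b ∈ s, (u b * c b) * UnitAddTorus.mFourierCoeff Y (a - b) := by
    intro a
    rw [h1, map_sum]
    rw [← dl_inner a, inner_sum]
    refine Finset.sum_congr rfl fun b _ => ?_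
    rw [map_smul, inner_smul_right, dl_inner, hY]
  unfold tr at *
  rw [sum_inner]
  refine Finset.sum_congr rfl fun a _ => ?_
  rw [inner_smul_left, dl_inner, hc, h2, Finset.mul_sum, Finset.mul_sum]
  refine Finset.sum_congr rfl fun b _ => ?_
  ring

/-- Schur's test on a finite set. -/
theorem schur {ι : Type} (s : Finset ι) (c : ι → ι → ℝ) (K : ℝ) (hK : 0 ≤ K)
    (h0 : ∀ a b, 0 ≤ c a b) (hrow : ∀ a ∈ s, ∑ b ∈ s, c a b ≤ K)
    (hsym : ∀ a b, c a b = c b a) (p q : ι → ℝ) (A B : ℝ) (hA0 : 0 ≤ A) (hB0 : 0 ≤ B)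
    (hA : ∑ a ∈ s, p a ^ 2 ≤ A ^ 2) (hB : ∑ a ∈ s, q a ^ 2 ≤ B ^ 2) :
    ∑ a ∈ s, ∑ b ∈ s, p a * c a b * q b ≤ K * (A * B) := by
  have h1 := Finset.sum_mul_sq_le_sq_mul_sq (s ×ˢ s)
    (fun x : ι × ι => Real.sqrt (c x.1 x.2) * p x.1) (fun x => Real.sqrt (c x.1 x.2) * q x.2)
  have h2 : ∑ x ∈ s ×ˢ s, (Real.sqrt (c x.1 x.2) * p x.1) * (Real.sqrt (c x.1 x.2) * q x.2)
      = ∑ a ∈ s, ∑ b ∈ s, p a * c a b * q b := by
    rw [Finset.sum_product]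
    refine Finset.sum_congr rfl fun a _ => Finset.sum_congr rfl fun b _ => ?_
    have := Real.mul_self_sqrt (h0 a b)
    calc (Real.sqrt (c a b) * p a) * (Real.sqrt (c a b) * q b)
        = (Real.sqrt (c a b) * Real.sqrt (c a b)) * (p a * q b) := by ring
      _ = _ := by rw [this]; ring
  have h3 : ∑ x ∈ s ×ˢ s, (Real.sqrt (c x.1 x.2) * p x.1) ^ 2 ≤ K * A ^ 2 := by
    rw [Finset.sum_product]
    calc ∑ a ∈ s, ∑ b ∈ s, (Real.sqrt (c a b) * p a) ^ 2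
        = ∑ a ∈ s, p a ^ 2 * ∑ b ∈ s, c a b := by
          refine Finset.sum_congr rfl fun a _ => ?_
          rw [Finset.mul_sum]
          refine Finset.sum_congr rfl fun b _ => ?_
          rw [mul_pow, Real.sq_sqrt (h0 a b)]
          ring
      _ ≤ ∑ a ∈ s, p a ^ 2 * K :=
          Finset.sum_le_sum fun a ha => mul_le_mul_of_nonneg_left (hrow a ha) (sq_nonneg _)
      _ = K * ∑ a ∈ s, p a ^ 2 := by rw [← Finset.sum_mul]; ring
      _ ≤ K * A ^ 2 := mul_le_mul_of_nonneg_left hA hK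
  have h4 : ∑ x ∈ s ×ˢ s, (Real.sqrt (c x.1 x.2) * q x.2) ^ 2 ≤ K * B ^ 2 := by
    rw [Finset.sum_product_right]
    calc ∑ b ∈ s, ∑ a ∈ s, (Real.sqrt (c a b) * q b) ^ 2
        = ∑ b ∈ s, q b ^ 2 * ∑ a ∈ s, c b a := by
          refine Finset.sum_congr rfl fun b _ => ?_
          rw [Finset.mul_sum]
          refine Finset.sum_congr rfl fun a _ => ?_
          rw [mul_pow, Real.sq_sqrt (h0 a b), hsym a b]
          ring
      _ ≤ ∑ b ∈ s, q b ^ 2 * K :=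
          Finset.sum_le_sum fun a ha => mul_le_mul_of_nonneg_left (hrow a ha) (sq_nonneg _)
      _ = K * ∑ a ∈ s, q a ^ 2 := by rw [← Finset.sum_mul]; ring
      _ ≤ K * B ^ 2 := mul_le_mul_of_nonneg_left hB hK
  rw [h2] at h1
  have h5 : (∑ a ∈ s, ∑ b ∈ s, p a * c a b * q b) ^ 2 ≤ (K * (A * B)) ^ 2 := by
    refine h1.trans ?_
    calc _ ≤ (K * A ^ 2) * (K * B ^ 2) :=
          mul_le_mul h3 h4 (Finset.sum_nonneg fun _ _ => sq_nonneg _) (by positivity)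
      _ = _ := by ring
  exact (abs_le_of_sq_le_sq' h5 (by positivity)).2

section

variable {d : ℕ} {P : Measure ((Fin d → ℤ) → ℝ)} [IsProbabilityMeasure P]

theorem bd_form (hD : S_DIA) (hO : S_OPR) (c : (Fin d → ℤ) → ℂ) (M : ℝ) (hM : 0 < M)
    (hc : ∀ x, ‖c x‖ ≤ M) (Y : C(UnitAddTorus (Fin d), ℂ)) (u u' : l2 (Fin d → ℤ)) :
    ‖inner ℂ u' (dia c (opr Y (dia c u)))‖ ≤ M ^ 2 * ‖Y‖ * (‖u'‖ * ‖u‖) := by
  obtain ⟨-, h2⟩ := dia_bd hD c M hM hc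
  have h3 : ‖opr Y‖ ≤ ‖Y‖ := (hO d Y Y).2.1
  have h4 : ‖dia c u‖ ≤ M * ‖u‖ := (ContinuousLinearMap.le_opNorm _ _).trans
    (mul_le_mul_of_nonneg_right h2 (norm_nonneg _))
  have h5 : ‖opr Y (dia c u)‖ ≤ ‖Y‖ * (M * ‖u‖) := (ContinuousLinearMap.le_opNorm _ _).trans
    (mul_le_mul h3 h4 (norm_nonneg _) (norm_nonneg _))
  have h6 : ‖dia c (opr Y (dia c u))‖ ≤ M * (‖Y‖ * (M * ‖u‖)) :=
    (ContinuousLinearMap.le_opNorm _ _).trans (mul_le_mul h2 h5 (norm_nonneg _) hM.le)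
  calc _ ≤ ‖u'‖ * ‖dia c (opr Y (dia c u))‖ := norm_inner_le_norm _ _
    _ ≤ ‖u'‖ * (M * (‖Y‖ * (M * ‖u‖))) := mul_le_mul_of_nonneg_left h6 (norm_nonneg _)
    _ = _ := by ring

/-- The integral of the truncated form. -/
theorem int_tr (hD : S_DIA) (hS : S_SYMB) (g : ((Fin d → ℤ) → ℝ) → (Fin d → ℤ) → ℂ) (M : ℝ)
    (hM : 0 < M) (hg : ∀ v x, ‖g v x‖ ≤ M) (hm : ∀ x, Measurable fun v => g v x)
    (Y : C(UnitAddTorus (Fin d), ℂ)) (s : Finset (Fin d → ℤ)) (u u' : l2 (Fin d → ℤ)) :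
    ∫ v, inner ℂ (tr s u') (dia (g v) (opr Y (dia (g v) (tr s u)))) ∂P
      = ∑ a ∈ s, ∑ b ∈ s, (starRingEnd ℂ (u' a) * UnitAddTorus.mFourierCoeff Y (a - b) * u b)
        * ∫ v, g v a * g v b ∂P := by
  have hI : ∀ a b : Fin d → ℤ, Integrable (fun v => g v a * g v b) P := by
    intro a b
    refine Integrable.of_bound ((hm a).mul (hm b)).aestronglyMeasurable (M * M) ?_
    refine Eventually.of_forall fun v => ?_
    rw [norm_mul]
    exact mul_le_mul (hg v a) (hg v b) (norm_nonneg _) hM.le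
  have h1 : ∀ v, inner ℂ (tr s u') (dia (g v) (opr Y (dia (g v) (tr s u))))
      = ∑ a ∈ s, ∑ b ∈ s, (starRingEnd ℂ (u' a) * UnitAddTorus.mFourierCoeff Y (a - b) * u b)
        * (g v a * g v b) := by
    intro v
    exact expand (g v) (dia_bd hD (g v) M hM (hg v)).1 Y ((hS d).2.2.2.2 Y) s u u'
  simp only [h1]
  rw [integral_finset_sum]
  · refine Finset.sum_congr rfl fun a _ => ?_
    rw [integral_finset_sum]
    · refine Finset.sum_congr rfl fun b _ => ?_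
      rw [integral_const_mul]
    · intro b _
      exact (hI a b).const_mul _
  · intro a _
    exact integrable_finset_sum _ fun b _ => (hI a b).const_mul _

/-- Convergence of the truncated forms. -/
theorem tendsto_tr (hD : S_DIA) (hO : S_OPR) (hS : S_SYMB)
    (g : ((Fin d → ℤ) → ℝ) → (Fin d → ℤ) → ℂ) (M : ℝ)
    (hM : 0 < M) (hg : ∀ v x, ‖g v x‖ ≤ M) (hm : ∀ x, Measurable fun v => g v x)
    (Y : C(UnitAddTorus (Fin d), ℂ)) (u u' : l2 (Fin d → ℤ)) :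
    Tendsto (fun s => ∫ v, inner ℂ (tr s u') (dia (g v) (opr Y (dia (g v) (tr s u)))) ∂P) atTop
      (𝓝 (∫ v, inner ℂ u' (dia (g v) (opr Y (dia (g v) u))) ∂P)) := by
  refine tendsto_integral_filter_of_dominated_convergence
    (fun _ => M ^ 2 * ‖Y‖ * (‖u'‖ * ‖u‖)) ?_ ?_ (integrable_const _) ?_
  · refine Eventually.of_forall fun s => ?_
    have h1 : ∀ v, inner ℂ (tr s u') (dia (g v) (opr Y (dia (g v) (tr s u))))
        = ∑ a ∈ s, ∑ b ∈ s, (starRingEnd ℂ (u' a) * UnitAddTorus.mFourierCoeff Y (a - b) * u b)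
          * (g v a * g v b) := by
      intro v
      exact expand (g v) (dia_bd hD (g v) M hM (hg v)).1 Y ((hS d).2.2.2.2 Y) s u u'
    simp only [h1]
    refine Measurable.aestronglyMeasurable ?_
    refine Finset.measurable_sum _ fun a _ => Finset.measurable_sum _ fun b _ => ?_
    exact ((hm a).mul (hm b)).const_mul _
  · refine Eventually.of_forall fun s => Eventually.of_forall fun v => ?_
    refine (bd_form hD hO (g v) M hM (hg v) Y (tr s u) (tr s u')).trans ?_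
    have := tr_norm s u
    have := tr_norm s u'
    gcongr
  · refine Eventually.of_forall fun v => ?_
    have h1 := tr_tendsto u
    have h2 := tr_tendsto u'
    have h3 : Tendsto (fun s => dia (g v) (opr Y (dia (g v) (tr s u)))) atTop
        (𝓝 (dia (g v) (opr Y (dia (g v) u)))) :=
      (((dia (g v)).continuous.comp (opr Y).continuous).comp (dia (g v)).continuous).continuousAt.tendsto.comp
        h1
    exact h2.inner h3

/-- The difference of two forms. -/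
theorem diff_form (hD : S_DIA) (hO : S_OPR) (hS : S_SYMB)
    (g h : ((Fin d → ℤ) → ℝ) → (Fin d → ℤ) → ℂ) (M : ℝ)
    (hM : 0 < M) (hg : ∀ v x, ‖g v x‖ ≤ M) (hm : ∀ x, Measurable fun v => g v x)
    (hh : ∀ v x, ‖h v x‖ ≤ M) (hmh : ∀ x, Measurable fun v => h v x) (K : ℝ) (hK : 0 ≤ K)
    (hrow : ∀ (s : Finset (Fin d → ℤ)), ∀ a ∈ s,
      ∑ b ∈ s, ‖(∫ v, g v a * g v b ∂P) - ∫ v, h v a * h v b ∂P‖ ≤ K)
    (Y : C(UnitAddTorus (Fin d), ℂ)) (u u' : l2 (Fin d → ℤ)) :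
    ‖(∫ v, inner ℂ u' (dia (g v) (opr Y (dia (g v) u))) ∂P)
      - ∫ v, inner ℂ u' (dia (h v) (opr Y (dia (h v) u))) ∂P‖ ≤ K * ‖Y‖ * (‖u'‖ * ‖u‖) := by
  have h1 := tendsto_tr (P := P) hD hO hS g M hM hg hm Y u u'
  have h2 := tendsto_tr (P := P) hD hO hS h M hM hh hmh Y u u'
  refine le_of_tendsto (h1.sub h2).norm (Eventually.of_forall fun s => ?_)
  rw [int_tr hD hS g M hM hg hm, int_tr hD hS h M hM hh hmh]
  rw [← Finset.sum_sub_distrib]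
  simp only [← Finset.sum_sub_distrib, ← mul_sub]
  have hsym : ∀ a b : Fin d → ℤ, ‖(∫ v, g v a * g v b ∂P) - ∫ v, h v a * h v b ∂P‖
      = ‖(∫ v, g v b * g v a ∂P) - ∫ v, h v b * h v a ∂P‖ := by
    intro a b
    congr 2
    · refine integral_congr_ae (Eventually.of_forall fun v => ?_)
      exact mul_comm _ _
    · refine integral_congr_ae (Eventually.of_forall fun v => ?_)
      exact mul_comm _ _
  have h3 := schur s (fun a b => ‖(∫ v, g v a * g v b ∂P) - ∫ v, h v a * h v b ∂P‖) K hK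
    (fun _ _ => norm_nonneg _) (hrow s) hsym (fun a => ‖u' a‖) (fun b => ‖u b‖) ‖u'‖ ‖u‖
    (norm_nonneg _) (norm_nonneg _) (sq_sum_le s u') (sq_sum_le s u)
  have hF : ∀ x : Fin d → ℤ, ‖UnitAddTorus.mFourierCoeff Y x‖ ≤ ‖Y‖ := (hO d Y Y).2.2.2.2.2.2.1
  calc _ ≤ ∑ a ∈ s, ∑ b ∈ s, ‖Y‖ * (‖u' a‖
        * ‖(∫ v, g v a * g v b ∂P) - ∫ v, h v a * h v b ∂P‖ * ‖u b‖) := by
        refine (norm_sum_le _ _).trans (Finset.sum_le_sum fun a _ => ?_)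
        refine (norm_sum_le _ _).trans (Finset.sum_le_sum fun b _ => ?_)
        rw [norm_mul, norm_mul, norm_mul, RCLike.norm_conj]
        calc _ ≤ ‖u' a‖ * ‖Y‖ * ‖u b‖
              * ‖(∫ v, g v a * g v b ∂P) - ∫ v, h v a * h v b ∂P‖ := by
              have := hF (a - b)
              gcongr
          _ = _ := by ring
    _ = ‖Y‖ * ∑ a ∈ s, ∑ b ∈ s, (‖u' a‖
        * ‖(∫ v, g v a * g v b ∂P) - ∫ v, h v a * h v b ∂P‖ * ‖u b‖) := by
        simp only [Finset.mul_sum]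
    _ ≤ ‖Y‖ * (K * (‖u'‖ * ‖u‖)) := mul_le_mul_of_nonneg_left h3 (norm_nonneg _)
    _ = _ := by ring

end

/-- Powers of the imaginary part. -/
theorem rp1 {y : ℝ} (h0 : 0 < y) (h2 : y ≤ 2) :
    y ^ (-(3 / 4) : ℝ) ≤ 2 * y ^ (-(15 / 16) : ℝ) := by
  have h1 : y ^ (-(3 / 4) : ℝ) = y ^ (3 / 16 : ℝ) * y ^ (-(15 / 16) : ℝ) := by
    rw [← Real.rpow_add h0]; norm_num
  rw [h1]
  refine mul_le_mul_of_nonneg_right ?_ (Real.rpow_nonneg h0.le _)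
  calc y ^ (3 / 16 : ℝ) ≤ 2 ^ (3 / 16 : ℝ) := Real.rpow_le_rpow h0.le h2 (by norm_num)
    _ ≤ 2 ^ (1 : ℝ) := Real.rpow_le_rpow_of_exponent_le (by norm_num) (by norm_num)
    _ = 2 := by norm_num

theorem rp2 {y : ℝ} (h0 : 0 < y) (h2 : y ≤ 2) :
    (y ^ (-(1 / 16) : ℝ)) ^ 2 ≤ 2 * y ^ (-(15 / 16) : ℝ) := by
  have h1 : (y ^ (-(1 / 16) : ℝ)) ^ 2 = y ^ (13 / 16 : ℝ) * y ^ (-(15 / 16) : ℝ) := by
    rw [← Real.rpow_natCast, ← Real.rpow_mul h0.le, ← Real.rpow_add h0]; norm_num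
  rw [h1]
  refine mul_le_mul_of_nonneg_right ?_ (Real.rpow_nonneg h0.le _)
  calc y ^ (13 / 16 : ℝ) ≤ 2 ^ (13 / 16 : ℝ) := Real.rpow_le_rpow h0.le h2 (by norm_num)
    _ ≤ 2 ^ (1 : ℝ) := Real.rpow_le_rpow_of_exponent_le (by norm_num) (by norm_num)
    _ = 2 := by norm_num

/-- The transform is measurable. -/
theorem hu_meas (w : ℝ) [IsProbabilityMeasure (unif w)] : Measurable (hu w) := by
  unfold hu
  have h : StronglyMeasurable (Function.uncurry fun (ζ : ℂ) (t : ℝ) => 1 / ((t : ℂ) - ζ)) := by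
    apply Measurable.stronglyMeasurable
    unfold Function.uncurry
    simp only
    fun_prop
  exact (h.integral_prod_right (ν := unif w)).measurable

theorem main : S_GR → S_RK → S_DIA → S_OPR → S_SYMB → S_U1 → S_KB2 → S_KB3 → S_OD := by
  intro hGR hRK hD hO hS hU hK2 hK3 d w θ _ hw hθ0 hθ1
  obtain ⟨-, C₁, hC₁, -, hU2, -⟩ := hU w hw
  obtain ⟨C₂, γ₂, hC₂, hγ₂, hK2⟩ := hK2 d w θ hw hθ0 hθ1
  obtain ⟨C₃, γ₃, hC₃, hγ₃, hK3⟩ := hK3 d w θ hw hθ0 hθ1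
  refine ⟨C₃ + 2 * C₂ + 4 * C₁ ^ 2, min γ₂ γ₃, by nlinarith [sq_nonneg C₁], lt_min hγ₂ hγ₃, ?_⟩
  intro γ hγ hγ' ζ hζ hy hy2 Y u u'
  have hK2 := hK2 γ hγ (hγ'.trans (min_le_left _ _)) ζ hζ hy hy2
  have hK3 := hK3 γ hγ (hγ'.trans (min_le_right _ _)) ζ hζ hy hy2
  obtain ⟨hRm, -, -, hRb, hR⟩ := hRK d w γ ζ hw hγ.le hy
  have hX : ∀ k, (xs d γ ζ k).im ≤ -ζ.im := by
    intro k
    have : xs d γ ζ k = ((γ * lap d k : ℝ) : ℂ) - ζ := rfl
    rw [this, Complex.sub_im, Complex.ofReal_im]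
    linarith
  obtain ⟨-, hGm⟩ := hGR d w ζ.im (xs d γ ζ) hw.le hy hX
  have hZ : ∀ (x : Fin d → ℤ) (v : (Fin d → ℤ) → ℝ), ζ.im ≤ (Zx w γ ζ x v).im := by
    intro x v
    obtain ⟨h1, h2, h3, -⟩ := hR x v
    rw [h3]
    have : (1 : ℝ) ≤ ∑' a, ‖Qx w γ ζ x a v‖ ^ 2 := by
      have := h2.le_tsum x (fun _ _ => by positivity)
      rw [h1] at this
      simpa using this
    nlinarith
  -- the two families
  have hgb : ∀ (v : (Fin d → ℤ) → ℝ) (a : Fin d → ℤ), ‖ge w γ ζ v a a‖ ≤ 1 / ζ.im :=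
    fun v a => (hRb v a a).2
  have hgm : ∀ a : Fin d → ℤ, Measurable fun v => ge w γ ζ v a a := fun a => hGm (dl a) a
  have hhb : ∀ (v : (Fin d → ℤ) → ℝ) (a : Fin d → ℤ),
      ‖hu w (Zx w γ ζ a v)‖ ≤ C₁ * ζ.im ^ (-(1 / 16) : ℝ) := by
    intro v a
    refine le_trans ?_ (hU2 (Zx w γ ζ a v) ζ.im hy hy2 (hZ a v))
    unfold hu
    refine (norm_integral_le_integral_norm _).trans (le_of_eq ?_)
    refine integral_congr_ae (Eventually.of_forall fun t => ?_)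
    simp
  have hhm : ∀ a : Fin d → ℤ, Measurable fun v => hu w (Zx w γ ζ a v) :=
    fun a => (hu_meas w).comp (hRm a)
  have hy16 : 0 < ζ.im ^ (-(1 / 16) : ℝ) := Real.rpow_pos_of_pos hy _
  have hB : 0 < C₁ * ζ.im ^ (-(1 / 16) : ℝ) := mul_pos (by linarith) hy16
  have hyi : 0 < 1 / ζ.im := by positivity
  set T : ℝ := γ ^ (1 / 2 : ℝ) / ζ.im + ζ.im ^ (-(15 / 16) : ℝ) with hT
  have hγp : 0 ≤ γ ^ (1 / 2 : ℝ) / ζ.im := div_nonneg (Real.rpow_nonneg hγ.le _) hy.le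
  have hyp : 0 < ζ.im ^ (-(15 / 16) : ℝ) := Real.rpow_pos_of_pos hy _
  have hT0 : 0 ≤ T := by positivity
  have hTy : ζ.im ^ (-(15 / 16) : ℝ) ≤ T := by rw [hT]; linarith
  have hdiag : ∀ a : Fin d → ℤ, ‖(∫ v, ge w γ ζ v a a * ge w γ ζ v a a ∂(Pn (unif w) (Fin d → ℤ)))
      - ∫ v, hu w (Zx w γ ζ a v) * hu w (Zx w γ ζ a v) ∂(Pn (unif w) (Fin d → ℤ))‖
      ≤ C₂ * ζ.im ^ (-(3 / 4) : ℝ) + (C₁ * ζ.im ^ (-(1 / 16) : ℝ)) ^ 2 := by
    intro a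
    refine (norm_sub_le _ _).trans (add_le_add ?_ ?_)
    · have h1 := hK2 a
      have h2 : ENNReal.ofReal ‖∫ v, ge w γ ζ v a a * ge w γ ζ v a a ∂(Pn (unif w) (Fin d → ℤ))‖
          ≤ ENNReal.ofReal (C₂ * ζ.im ^ (-(3 / 4) : ℝ)) := by
        refine le_trans ?_ h1
        refine le_trans ?_ (ENNReal.le_tsum a)
        exact ENNReal.le_tsum (f := fun x => ENNReal.ofReal
          ‖∫ v, ge w γ ζ v a x * ge w γ ζ v x a ∂(Pn (unif w) (Fin d → ℤ))‖) a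
      refine (ENNReal.ofReal_le_ofReal_iff ?_).1 h2
      have := Real.rpow_pos_of_pos hy (-(3 / 4))
      positivity
    · have h1 : ∀ v, ‖hu w (Zx w γ ζ a v) * hu w (Zx w γ ζ a v)‖
          ≤ (C₁ * ζ.im ^ (-(1 / 16) : ℝ)) ^ 2 := by
        intro v
        rw [norm_mul, sq]
        exact mul_le_mul (hhb v a) (hhb v a) (norm_nonneg _) hB.le
      refine (norm_integral_le_of_norm_le_const (Eventually.of_forall h1)).trans ?_
      simp
  set K : ℝ := C₃ * T + (C₂ * ζ.im ^ (-(3 / 4) : ℝ) + (C₁ * ζ.im ^ (-(1 / 16) : ℝ)) ^ 2) with hKdef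
  have hy34 : 0 < ζ.im ^ (-(3 / 4) : ℝ) := Real.rpow_pos_of_pos hy _
  have hK0 : 0 ≤ K := by positivity
  have hrow : ∀ (s : Finset (Fin d → ℤ)), ∀ a ∈ s,
      ∑ b ∈ s, ‖(∫ v, ge w γ ζ v a a * ge w γ ζ v b b ∂(Pn (unif w) (Fin d → ℤ)))
        - ∫ v, hu w (Zx w γ ζ a v) * hu w (Zx w γ ζ b v) ∂(Pn (unif w) (Fin d → ℤ))‖ ≤ K := by
    intro s a ha
    rw [← Finset.add_sum_erase s _ ha, hKdef, add_comm]
    refine add_le_add ?_ (hdiag a)
    have h1 := hK3 a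
    have h2 : ENNReal.ofReal (∑ b ∈ s.erase a,
        ‖(∫ v, ge w γ ζ v a a * ge w γ ζ v b b ∂(Pn (unif w) (Fin d → ℤ)))
          - ∫ v, hu w (Zx w γ ζ a v) * hu w (Zx w γ ζ b v) ∂(Pn (unif w) (Fin d → ℤ))‖)
        ≤ ENNReal.ofReal (C₃ * T) := by
      rw [ENNReal.ofReal_sum_of_nonneg (fun _ _ => norm_nonneg _)]
      refine le_trans ?_ h1
      refine le_trans ?_ (ENNReal.sum_le_tsum (s.erase a))
      refine Finset.sum_le_sum fun b hb => ?_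
      rw [if_neg (Finset.ne_of_mem_erase hb)]
    exact (ENNReal.ofReal_le_ofReal_iff (by positivity)).1 h2
  have hA := diff_form (P := Pn (unif w) (Fin d → ℤ)) hD hO hS (fun v a => ge w γ ζ v a a)
    (fun v a => hu w (Zx w γ ζ a v)) (max (1 / ζ.im) (C₁ * ζ.im ^ (-(1 / 16) : ℝ)))
    (lt_max_of_lt_left hyi) (fun v x => (hgb v x).trans (le_max_left _ _)) hgm
    (fun v x => (hhb v x).trans (le_max_right _ _)) hhm K hK0 hrow Y u u'
  have hBd : ‖∫ v, inner ℂ u' (dia (fun a => hu w (Zx w γ ζ a v))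
      (opr Y (dia (fun a => hu w (Zx w γ ζ a v)) u))) ∂(Pn (unif w) (Fin d → ℤ))‖
      ≤ (C₁ * ζ.im ^ (-(1 / 16) : ℝ)) ^ 2 * ‖Y‖ * (‖u'‖ * ‖u‖) := by
    refine (norm_integral_le_of_norm_le_const (Eventually.of_forall fun v =>
      bd_form hD hO _ _ hB (hhb v) Y u u')).trans ?_
    simp
  have hsum : ‖∫ v, inner ℂ u' (dg w γ ζ v (opr Y (dg w γ ζ v u))) ∂(Pn (unif w) (Fin d → ℤ))‖
      ≤ (K + (C₁ * ζ.im ^ (-(1 / 16) : ℝ)) ^ 2) * ‖Y‖ * (‖u'‖ * ‖u‖) := by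
    have h1 := norm_le_norm_sub_add (∫ v, inner ℂ u' (dg w γ ζ v (opr Y (dg w γ ζ v u)))
      ∂(Pn (unif w) (Fin d → ℤ))) (∫ v, inner ℂ u' (dia (fun a => hu w (Zx w γ ζ a v))
      (opr Y (dia (fun a => hu w (Zx w γ ζ a v)) u))) ∂(Pn (unif w) (Fin d → ℤ)))
    refine h1.trans ?_
    have h2 := add_le_add hA hBd
    refine le_trans h2 (le_of_eq ?_)
    ring
  refine hsum.trans ?_
  have hfin : K + (C₁ * ζ.im ^ (-(1 / 16) : ℝ)) ^ 2 ≤ (C₃ + 2 * C₂ + 4 * C₁ ^ 2) * T := by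
    have e1 := rp1 hy hy2
    have e2 := rp2 hy hy2
    have e3 : C₂ * ζ.im ^ (-(3 / 4) : ℝ) ≤ 2 * C₂ * T := by
      calc C₂ * ζ.im ^ (-(3 / 4) : ℝ) ≤ C₂ * (2 * ζ.im ^ (-(15 / 16) : ℝ)) :=
            mul_le_mul_of_nonneg_left e1 (by linarith)
        _ = 2 * C₂ * ζ.im ^ (-(15 / 16) : ℝ) := by ring
        _ ≤ _ := mul_le_mul_of_nonneg_left hTy (by linarith)
    have e4 : (C₁ * ζ.im ^ (-(1 / 16) : ℝ)) ^ 2 ≤ 2 * C₁ ^ 2 * T := by
      calc (C₁ * ζ.im ^ (-(1 / 16) : ℝ)) ^ 2 = C₁ ^ 2 * (ζ.im ^ (-(1 / 16) : ℝ)) ^ 2 := by ring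
        _ ≤ C₁ ^ 2 * (2 * ζ.im ^ (-(15 / 16) : ℝ)) := mul_le_mul_of_nonneg_left e2 (by positivity)
        _ = 2 * C₁ ^ 2 * ζ.im ^ (-(15 / 16) : ℝ) := by ring
        _ ≤ _ := mul_le_mul_of_nonneg_left hTy (by positivity)
    rw [hKdef]
    nlinarith
  gcongr

end

end Pool.Agent.N364.SD.OD
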