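import Pool.Agent.N662.SD.Stm

/-!
# Project SD (helper662), part SEL: pairs of points of a set of positive outer measure
-/

set_option autoImplicit false

open MeasureTheory Filter Topology Set

namespace Pool.Agent.N364.SD

/-- a bounded set of positive outer measure has pairs at every small scale -/
theorem pairs (D : Set ℝ) (M : ℝ) (hM : 0 ≤ M) (hD : ∀ v ∈ D, |v| ≤ M) (h0 : volume D ≠ 0) :
    ∃ J : ℝ, 1 ≤ J ∧ ∃ r₀ : ℝ, 0 < r₀ ∧ ∀ r : ℝ, 0 < r → r ≤ r₀ →
      ∃ v ∈ D, ∃ v' ∈ D, r ≤ v' - v ∧ v' - v ≤ J * r := by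
  have hfin : volume D ≠ ⊤ := by
    have hsub : D ⊆ Icc (-M) M := fun v hv => abs_le.1 (hD v hv)
    refine ne_top_of_le_ne_top ?_ (measure_mono hsub)
    rw [Real.volume_Icc]
    exact ENNReal.ofReal_ne_top
  set s : ℝ := (volume D).toReal with hs
  have hs0 : 0 < s := ENNReal.toReal_pos h0 hfin
  refine ⟨4 * (M + 1) / s + 1, ?_, s / 8, by positivity, fun r hr hrs => ?_⟩
  · have : 0 ≤ 4 * (M + 1) / s := by positivity
    linarith
  set J : ℝ := 4 * (M + 1) / s + 1 with hJ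
  have hJ0 : 0 < J := by positivity
  have hJs : 4 * (M + 1) < J * s := by
    rw [hJ, add_mul, div_mul_cancel₀ _ hs0.ne']
    linarith
  by_contra hcon
  push Not at hcon
  have hJr : 0 < J * r := by positivity
  -- close pairs are very close
  have hclose : ∀ v ∈ D, ∀ v' ∈ D, |v' - v| ≤ J * r → |v' - v| ≤ r := by
    intro v hv v' hv' h
    rcases le_total v v' with hvv | hvv
    · rw [abs_of_nonneg (sub_nonneg.2 hvv)] at h ⊢
      by_contra h1
      exact absurd h (not_le.2 (hcon v hv v' hv' (not_le.1 h1).le))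
    · rw [abs_of_nonpos (sub_nonpos.2 hvv), neg_sub] at h ⊢
      by_contra h1
      exact absurd h (not_le.2 (hcon v' hv' v hv (not_le.1 h1).le))
  set m : ℕ := ⌈M / (J * r)⌉₊ with hm
  have hmle : M / (J * r) ≤ m := Nat.le_ceil _
  have hmlt : (m : ℝ) < M / (J * r) + 1 := Nat.ceil_lt_add_one (by positivity)
  -- the cells
  have hcov : D ⊆ ⋃ j ∈ Finset.Icc (-(m : ℤ)) m, {x ∈ D | ⌊x / (J * r)⌋ = j} := by
    intro x hx
    simp only [mem_iUnion, exists_prop]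
    refine ⟨⌊x / (J * r)⌋, ?_, hx, rfl⟩
    have hx1 := abs_le.1 (hD x hx)
    rw [Finset.mem_Icc]
    constructor
    · rw [Int.le_floor]
      push_cast
      have : -(M / (J * r)) ≤ x / (J * r) := by
        rw [← neg_div]
        exact div_le_div_of_nonneg_right hx1.1 hJr.le
      linarith
    · have h2 : (⌊x / (J * r)⌋ : ℝ) ≤ (m : ℝ) := by
        refine (Int.floor_le _).trans (le_trans ?_ hmle)
        exact div_le_div_of_nonneg_right hx1.2 hJr.le
      exact_mod_cast h2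
  have hcell : ∀ j : ℤ, volume {x ∈ D | ⌊x / (J * r)⌋ = j} ≤ ENNReal.ofReal r := by
    intro j
    refine (Real.volume_le_diam _).trans ?_
    refine Metric.ediam_le ?_
    rintro x ⟨hx, hxj⟩ y ⟨hy, hyj⟩
    rw [edist_dist, Real.dist_eq]
    refine ENNReal.ofReal_le_ofReal ?_
    refine hclose y hy x hx ?_
    have h1 : |x / (J * r) - y / (J * r)| < 1 := Int.abs_sub_lt_one_of_floor_eq_floor (hxj.trans hyj.symm)
    rw [← sub_div, abs_div, abs_of_pos hJr, div_lt_one hJr] at h1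
    exact h1.le
  have hvol : volume D ≤ ENNReal.ofReal ((2 * m + 1) * r) := by
    calc volume D ≤ volume (⋃ j ∈ Finset.Icc (-(m : ℤ)) m, {x ∈ D | ⌊x / (J * r)⌋ = j}) :=
          measure_mono hcov
      _ ≤ ∑ j ∈ Finset.Icc (-(m : ℤ)) m, volume {x ∈ D | ⌊x / (J * r)⌋ = j} :=
          measure_biUnion_finset_le _ _
      _ ≤ ∑ j ∈ Finset.Icc (-(m : ℤ)) m, ENNReal.ofReal r := Finset.sum_le_sum fun j _ => hcell j
      _ = ENNReal.ofReal ((2 * m + 1) * r) := by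
          rw [Finset.sum_const, Int.card_Icc, nsmul_eq_mul, ENNReal.ofReal_mul (by positivity)]
          congr 1
          have e1 : ((m : ℤ) + 1 - -(m : ℤ)).toNat = 2 * m + 1 := by omega
          rw [e1]
          rw [show (2 * (m : ℝ) + 1) = ((2 * m + 1 : ℕ) : ℝ) by push_cast; ring,
            ENNReal.ofReal_natCast]
  have hs1 : s ≤ (2 * m + 1) * r := by
    rw [hs]
    exact ENNReal.toReal_le_of_le_ofReal (by positivity) hvol
  have hs2 : (2 * (m : ℝ) + 1) * r ≤ 2 * M / J + 3 * r := by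
    have h1 : (2 * (m : ℝ) + 1) * r ≤ (2 * (M / (J * r) + 1) + 1) * r := by
      apply mul_le_mul_of_nonneg_right _ hr.le
      linarith
    refine h1.trans (le_of_eq ?_)
    field_simp
    ring
  have hs3 : 2 * M / J < s / 2 := by
    rw [div_lt_div_iff₀ hJ0 (by norm_num)]
    nlinarith
  linarith

/-- differentiability in a usable form -/
theorem diff_bound {g : ℝ → ℝ} {v : ℝ} (hg : DifferentiableAt ℝ g v) (N : ℕ) :
    ∃ k : ℕ, N ≤ k ∧ ∀ y, |y - v| ≤ 1 / (k + 1) → |g y - g v| ≤ k * |y - v| := by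
  obtain ⟨c, hc⟩ := (hg.hasDerivAt.isBigO_sub).bound
  obtain ⟨ε, hε, hc⟩ := Metric.eventually_nhds_iff.1 hc
  obtain ⟨k₁, hk₁⟩ := exists_nat_ge c
  obtain ⟨k₂, hk₂⟩ := exists_nat_gt (1 / ε)
  refine ⟨max N (max k₁ k₂), le_max_left _ _, fun y hy => ?_⟩
  have h1 : k₁ ≤ max N (max k₁ k₂) := (le_max_left _ _).trans (le_max_right _ _)
  have h2 : k₂ ≤ max N (max k₁ k₂) := (le_max_right _ _).trans (le_max_right _ _)
  set k := max N (max k₁ k₂)
  have h1' : (k₁ : ℝ) ≤ k := by exact_mod_cast h1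
  have h2' : (k₂ : ℝ) ≤ k := by exact_mod_cast h2
  have hlt : |y - v| < ε := by
    refine lt_of_le_of_lt hy ?_
    rw [div_lt_iff₀ (by positivity)]
    rw [div_lt_iff₀ hε] at hk₂
    nlinarith
  have h3 := hc (show dist y v < ε by rwa [Real.dist_eq])
  rw [Real.norm_eq_abs, Real.norm_eq_abs] at h3
  exact h3.trans (mul_le_mul_of_nonneg_right (hk₁.trans h1') (abs_nonneg _))

theorem main : Pool.Agent.N662.SD.S_SEL := by
  intro B hB h hh Q hQ r hr hr0
  -- step 1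
  obtain ⟨M, hM⟩ : ∃ M : ℕ, volume {v ∈ B | |v| ≤ M ∧ |h v| ≤ M} ≠ 0 := by
    by_contra hcon
    push Not at hcon
    apply hB
    refine measure_mono_null ?_ (measure_iUnion_null hcon)
    intro v hv
    obtain ⟨M, hM⟩ := exists_nat_ge (max |v| |h v|)
    exact mem_iUnion.2 ⟨M, hv, (le_max_left _ _).trans hM, (le_max_right _ _).trans hM⟩
  set BM : Set ℝ := {v ∈ B | |v| ≤ M ∧ |h v| ≤ M} with hBM
  -- step 2
  obtain ⟨g, hg, hgh⟩ := MonotoneOn.exists_monotone_extension (f := h) (s := BM)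
    (hh.mono fun v hv => hv.1)
    ⟨-(M : ℝ), by rintro _ ⟨v, hv, rfl⟩; exact (abs_le.1 hv.2.2).1⟩
    ⟨(M : ℝ), by rintro _ ⟨v, hv, rfl⟩; exact (abs_le.1 hv.2.2).2⟩
  -- step 3
  obtain ⟨k, hk⟩ : ∃ k : ℕ, volume {v ∈ BM | (∀ y, |y - v| ≤ 1 / (k + 1) →
      |g y - g v| ≤ k * |y - v|) ∧ ∀ n, k ≤ n → Q v n} ≠ 0 := by
    by_contra hcon
    push Not at hcon
    apply hM
    refine measure_mono_null (t := {v | ¬ DifferentiableAt ℝ g v} ∪ ⋃ k : ℕ,
      {v ∈ BM | (∀ y, |y - v| ≤ 1 / (k + 1) → |g y - g v| ≤ k * |y - v|) ∧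
        ∀ n, k ≤ n → Q v n}) ?_ ?_
    · intro v hv
      by_cases hd : DifferentiableAt ℝ g v
      · right
        obtain ⟨N, hN⟩ := eventually_atTop.1 (hQ v hv.1)
        obtain ⟨k, hk1, hk2⟩ := diff_bound hd N
        exact mem_iUnion.2 ⟨k, hv, hk2, fun n hn => hN n (hk1.trans hn)⟩
      · left
        exact hd
    · rw [measure_union_null_iff]
      exact ⟨hg.ae_differentiableAt, measure_iUnion_null hcon⟩
  set D : Set ℝ := {v ∈ BM | (∀ y, |y - v| ≤ 1 / (k + 1) →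
      |g y - g v| ≤ k * |y - v|) ∧ ∀ n, k ≤ n → Q v n} with hD
  -- step 4
  obtain ⟨J, hJ, r₀, hr₀, hp⟩ := pairs D M (Nat.cast_nonneg M) (fun v hv => hv.1.2.1) hk
  -- step 5
  refine ⟨k, J, ?_⟩
  have h1 : ∀ᶠ n in atTop, r n < r₀ := hr0.eventually (gt_mem_nhds hr₀)
  have h2 : ∀ᶠ n in atTop, r n < 1 / (k + 1) / J :=
    hr0.eventually (gt_mem_nhds (by positivity))
  filter_upwards [h1, h2, eventually_ge_atTop k] with n hn1 hn2 hn3
  obtain ⟨v, hv, v', hv', h3, h4⟩ := hp (r n) (hr n) hn1.le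
  have hJ0 : 0 < J := by linarith
  refine ⟨v, hv.1.1, v', hv'.1.1, h3, h4, ?_, hv.2.2 n hn3, hv'.2.2 n hn3⟩
  have h5 : 0 < v' - v := lt_of_lt_of_le (hr n) h3
  have h6 : |v' - v| ≤ 1 / (k + 1) := by
    rw [abs_of_pos h5]
    rw [lt_div_iff₀ hJ0] at hn2
    linarith
  have h7 := hv.2.1 v' h6
  rw [abs_of_pos h5] at h7
  rw [hgh hv.1, hgh hv'.1]
  exact (le_abs_self _).trans h7

end Pool.Agent.N364.SD
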